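import Pool.Agent.H18.GZ.Targets3

/-!
Row ADP of the board gz_modules (MP_52e316_nt): the pointwise identity (helper8).
-/

set_option autoImplicit false

namespace Pool.Agent.H8.GZ.PA

open MeasureTheory Pool.Agent.H34.GM Pool.Agent.H34.GZ

theorem aN_pos {m : ℕ} (a : Mat m) (h : a.det ≠ 0) : 0 < aN a :=
  Real.rpow_pos_of_pos (abs_pos.mpr h) _

theorem abs_le_sz {m : ℕ} (a : Mat m) (i j : Fin m) : |a i j| ≤ sz a := by
  have h1 := norm_le_pi_norm ((fun i j => a i j) : V m) i
  have h2 := norm_le_pi_norm (((fun i j => a i j) : V m) i) j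
  exact h2.trans h1

theorem fin_box {m : ℕ} (B : ℝ) : {α : ZM m | sz (cR α) ≤ B}.Finite := by
  obtain ⟨N, hN⟩ := exists_nat_ge B
  refine (Set.finite_Icc (fun _ _ => -(N : ℤ) : Fin m → Fin m → ℤ)
    (fun _ _ => (N : ℤ))).subset ?_
  intro α hα
  have h1 : ∀ i j, |(α i j : ℝ)| ≤ N := fun i j =>
    (abs_le_sz (cR α) i j).trans (le_trans hα hN)
  have h2 : ∀ i j, |α i j| ≤ N := fun i j => by exact_mod_cast h1 i j
  exact ⟨fun i j => (abs_le.mp (h2 i j)).1, fun i j => (abs_le.mp (h2 i j)).2⟩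

/-- the kernel has finite support -/
theorem fin_supp {m : ℕ} {Φ : Mat m → ℂ} (hΦ : Tst m Φ) {r : ℝ} (hr : 0 < r) {z g : Mat m}
    (hz : z.det ≠ 0) (hg : g.det ≠ 0) :
    {α : ZM m | Φ (kk r z (cR α) g) ≠ 0}.Finite := by
  obtain ⟨c, hc, hs⟩ := hΦ.supp
  set L : ℝ := r⁻¹ * aN z / aN g with hL
  have hL0 : 0 < L := by
    have := aN_pos z hz
    have := aN_pos g hg
    positivity
  have h1 : ContinuousOn (fun w : V m => ((fun i j => (L⁻¹ • (z * mt w * g⁻¹)) i j) : V m))
      (Metric.closedBall 0 c) := by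
    have : Continuous (fun w : Mat m => L⁻¹ • (z * w * g⁻¹)) := by fun_prop
    have h2 : Continuous (fun w : V m => ((fun i j => (L⁻¹ • (z * mt w * g⁻¹)) i j) : V m)) :=
      this
    exact h2.continuousOn
  obtain ⟨B, hB⟩ := (isCompact_closedBall (0 : V m) c).exists_bound_of_continuousOn h1
  refine (fin_box B).subset ?_
  intro α hα
  have h3 := (hs _ hα).1
  have h4 := hB (fun i j => kk r z (cR α) g i j) (by
    rw [mem_closedBall_zero_iff]
    exact h3)
  have h5 : L⁻¹ • (z * kk r z (cR α) g * g⁻¹) = cR α := by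
    unfold kk
    rw [← hL, Matrix.mul_smul, Matrix.smul_mul, smul_smul, inv_mul_cancel₀ hL0.ne', one_smul,
      ← Matrix.mul_assoc, ← Matrix.mul_assoc, Matrix.mul_nonsing_inv _
      (isUnit_iff_ne_zero.2 hz), Matrix.one_mul, Matrix.mul_assoc, Matrix.mul_nonsing_inv _
      (isUnit_iff_ne_zero.2 hg), Matrix.mul_one]
  have h6 : sz (cR α) = ‖((fun i j => (L⁻¹ • (z * mt (fun i j => kk r z (cR α) g i j)
      * g⁻¹)) i j) : V m)‖ := by
    have h7 : mt (fun i j => kk r z (cR α) g i j) = kk r z (cR α) g := by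
      ext i j
      rfl
    rw [h7, h5]
    rfl
  rw [Set.mem_ofPred_eq, h6]
  exact h4

/-- the sum over the classes, by primitivity -/
theorem inner {m q : ℕ} [NeZero q] (f : RM m q → ℂ)
    (hψ : ∀ x y : RM m q, psq q (x * y) = psq q (y * x))
    (hp : ∀ a : RM m q, ¬ IsUnit a → ∑ y, psq q (a * y) * f y = 0) (w : RM m q)
    (v : (RM m q)ˣ) :
    (IsUnit w → ∑ c, psq q (w * c) * f (c * (v : RM m q)) =
      ∑ y, psq q (y * Ring.inverse (v : RM m q)) * f (Ring.inverse w * y)) ∧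
    (¬ IsUnit w → ∑ c, psq q (w * c) * f (c * (v : RM m q)) = 0) := by
  have h1 : ∑ c, psq q (w * c) * f (c * (v : RM m q)) =
      ∑ y, psq q (w * (y * ((v⁻¹ : (RM m q)ˣ) : RM m q))) * f y := by
    rw [← Equiv.sum_comp (Units.mulRight v) (fun y : RM m q =>
      psq q (w * (y * ((v⁻¹ : (RM m q)ˣ) : RM m q))) * f y)]
    apply Finset.sum_congr rfl
    intro c _
    rw [Units.mulRight_apply, mul_assoc c, Units.mul_inv, mul_one]
  rw [h1]
  refine ⟨fun hw => ?_, fun hw => ?_⟩
  · obtain ⟨u, rfl⟩ := hw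
    rw [Ring.inverse_unit, Ring.inverse_unit]
    rw [← Equiv.sum_comp (Units.mulLeft (u⁻¹ : (RM m q)ˣ)) (fun y : RM m q =>
      psq q ((u : RM m q) * (y * ((v⁻¹ : (RM m q)ˣ) : RM m q))) * f y)]
    apply Finset.sum_congr rfl
    intro y _
    rw [Units.mulLeft_apply]
    congr 1
    rw [← mul_assoc, ← mul_assoc, Units.mul_inv, one_mul]
  · have h2 : ¬ IsUnit (((v⁻¹ : (RM m q)ˣ) : RM m q) * w) := by
      intro h
      exact hw ((Units.isUnit_units_mul _ _).1 h)
    rw [← hp _ h2]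
    apply Finset.sum_congr rfl
    intro y _
    congr 1
    rw [← mul_assoc, hψ, ← mul_assoc]

open Classical in
/-- one term of the dual sum -/
noncomputable def tm {m q : ℕ} (A : ZM m → ℂ) (f : RM m q → ℂ) (y : RM m q) (β : ZM m) : ℂ :=
  if IsUnit (cQ q β) then A β * f (Ring.inverse (cQ q β) * y) else 0

theorem tm_summable {m q : ℕ} [NeZero q] {A : ZM m → ℂ} (hA : Summable fun β => ‖A β‖)
    (f : RM m q → ℂ) (y : RM m q) : Summable (tm A f y) := by
  refine Summable.of_norm_bounded (hA.mul_right (∑ x, ‖f x‖)) fun β => ?_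
  unfold tm
  split_ifs
  · rw [norm_mul]
    refine mul_le_mul_of_nonneg_left ?_ (norm_nonneg _)
    exact Finset.single_le_sum (f := fun x => ‖f x‖) (fun x _ => norm_nonneg _)
      (Finset.mem_univ _)
  · rw [norm_zero]
    positivity

open Classical in
/-- the kernels for one point, by Poisson summation -/
theorem point {m q : ℕ} [NeZero q] (P : ZM m → ℂ) (hP0 : {α : ZM m | P α ≠ 0}.Finite)
    (A : ZM m → ℂ) (hs : Summable fun β : ZM m => ‖A β‖) (K : ℂ) (f : RM m q → ℂ)
    (hψ : ∀ x y : RM m q, psq q (x * y) = psq q (y * x)) (hn : ∀ x : RM m q, ‖psq q x‖ = 1)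
    (hp : ∀ a : RM m q, ¬ IsUnit a → ∑ y, psq q (a * y) * f y = 0)
    (hP : ∀ c : RM m q, ∑' α : ZM m, (if cQ q α = c then P α else 0) =
      K * ∑' β : ZM m, psq q (cQ q β * c) * A β)
    (v : (RM m q)ˣ) :
    ∑' α : ZM m, P α * f (cQ q α * (v : RM m q)) =
      K * ∑ y, psq q (y * Ring.inverse (v : RM m q)) * ∑' β, tm A f y β := by
  have h1 : ∀ α : ZM m, P α * f (cQ q α * (v : RM m q)) =
      ∑ c : RM m q, (if cQ q α = c then P α else 0) * f (c * (v : RM m q)) := by
    intro α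
    rw [Finset.sum_eq_single (cQ q α)]
    · rw [if_pos rfl]
    · intro c _ hc
      rw [if_neg (Ne.symm hc), zero_mul]
    · intro h
      exact absurd (Finset.mem_univ _) h
  have hfs : ∀ c : RM m q, Summable fun α : ZM m =>
      (if cQ q α = c then P α else 0) * f (c * (v : RM m q)) := by
    intro c
    apply summable_of_hasFiniteSupport
    apply hP0.subset
    intro α hα h0
    apply hα
    simp only
    split_ifs
    · rw [h0, zero_mul]
    · rw [zero_mul]
  have hps : ∀ c : RM m q, Summable fun β : ZM m => psq q (cQ q β * c) * A β := by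
    intro c
    apply Summable.of_norm
    refine hs.congr fun β => ?_
    rw [norm_mul, hn, one_mul]
  rw [tsum_congr h1, Summable.tsum_finsetSum (fun c _ => hfs c)]
  have h2 : ∀ c : RM m q, ∑' α : ZM m, (if cQ q α = c then P α else 0) *
      f (c * (v : RM m q)) = ∑' β : ZM m, K * (psq q (cQ q β * c) * A β) *
        f (c * (v : RM m q)) := by
    intro c
    rw [tsum_mul_right, hP c, tsum_mul_right, tsum_mul_left]
  rw [Finset.sum_congr rfl (fun c _ => h2 c),
    ← Summable.tsum_finsetSum (fun c _ => ((hps c).mul_left K).mul_right _)]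
  have h5 : ∑ y, psq q (y * Ring.inverse (v : RM m q)) * ∑' β, tm A f y β =
      ∑' β, ∑ y, psq q (y * Ring.inverse (v : RM m q)) * tm A f y β := by
    rw [Summable.tsum_finsetSum (fun y _ => (tm_summable hs f y).mul_left _)]
    refine Finset.sum_congr rfl fun y _ => ?_
    rw [tsum_mul_left]
  rw [h5, ← tsum_mul_left]
  apply tsum_congr
  intro β
  have h3 := inner f hψ hp (cQ q β) v
  have h4 : ∑ c, K * (psq q (cQ q β * c) * A β) * f (c * (v : RM m q)) = K * A β *
      ∑ c, psq q (cQ q β * c) * f (c * (v : RM m q)) := by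
    rw [Finset.mul_sum]
    apply Finset.sum_congr rfl
    intro c _
    ring
  rw [h4]
  by_cases hu : IsUnit (cQ q β)
  · rw [h3.1 hu, mul_assoc, Finset.mul_sum]
    refine congrArg _ ?_
    apply Finset.sum_congr rfl
    intro y _
    unfold tm
    rw [if_pos hu]
    ring
  · rw [h3.2 hu, mul_zero]
    symm
    rw [Finset.sum_eq_zero, mul_zero]
    intro y _
    unfold tm
    rw [if_neg hu, mul_zero]

end Pool.Agent.H8.GZ.PA

namespace Pool.Agent.H8.GZ

open MeasureTheory Pool.Agent.H34.GM Pool.Agent.H34.GZ PA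

theorem pf_ADP (hPOZ : T_POZ) (hPSZ : T_PSZ) (hALZ : T_ALZ) : T_ADP := by
  classical
  intro m q _ hm1 hq2 Φ hΦ f f' hf hprim g h r hg hh hr
  have hq0 : (0 : ℝ) < q := by
    have : 0 < q := by omega
    exact_mod_cast this
  obtain ⟨_, _, _, hn, _, hψ, _⟩ := hPSZ m q hm1 hq2
  obtain ⟨_, _, _, _, _, huu, huinv⟩ := hALZ m q hm1 hq2
  set R : ℝ := (q : ℝ) / r with hR
  have hR0 : 0 < R := by positivity
  have hrr : (q : ℝ) / R = r := by
    rw [hR]
    field_simp
  have hP := hPOZ m q hm1 hq2 Φ hΦ g h R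
  set A : ZM m → ℂ := fun β => ft Φ (kk r g (cR β) h) with hA
  have hs : Summable fun β : ZM m => ‖A β‖ := by
    have h3 := (hP 0 hg hh hR0).1
    rw [hrr] at h3
    exact h3
  set K : ℂ := ((R ^ (m ^ 2) / (q : ℝ) ^ (m ^ 2) : ℝ) : ℂ) with hK
  have hpt : ∀ v : (RM m q)ˣ, ∑' α : ZM m, Φ (kk R h (cR α) g) * f (cQ q α * (v : RM m q)) =
      K * ∑ y, psq q (y * Ring.inverse (v : RM m q)) * ∑' β, tm A f y β := by
    intro v
    refine point (fun α => Φ (kk R h (cR α) g)) (fin_supp hΦ.toTst hR0 hh hg) A hs K f hψ hn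
      hprim (fun c => ?_) v
    have h3 := (hP c hg hh hR0).2
    rw [hrr] at h3
    rw [← h3]
  -- the dual sums
  have hS0 : ∀ y : RM m q, ¬ IsUnit y → ∑' β, tm A f y β = 0 := by
    intro y hy
    have : ∀ β, tm A f y β = 0 := by
      intro β
      unfold tm
      split_ifs with hu
      · rw [hf _ (fun h0 => hy ((huu _ _).1 h0).2), mul_zero]
      · rfl
    simp only [this, tsum_zero]
  -- the left side
  have hL : ∀ x : RM m q, (∑' α : ZM m, Φ (kk R h (cR α) g) * f (cQ q α * x)) *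
      (starRingEnd ℂ) (f' x) = ∑ y, K * ((∑' β, tm A f y β) *
        (if IsUnit x then psq q (y * Ring.inverse x) * (starRingEnd ℂ) (f' x) else 0)) := by
    intro x
    by_cases hx : IsUnit x
    · obtain ⟨v, rfl⟩ := hx
      rw [hpt v, mul_assoc, Finset.sum_mul, Finset.mul_sum]
      refine Finset.sum_congr rfl fun y _ => ?_
      rw [if_pos v.isUnit]
      ring
    · have h0 : ∀ α : ZM m, Φ (kk R h (cR α) g) * f (cQ q α * x) = 0 := by
        intro α
        rw [hf _ (fun h0 => hx ((huu _ _).1 h0).2), mul_zero]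
      simp only [h0, tsum_zero, zero_mul, if_neg hx, mul_zero, Finset.sum_const_zero]
  rw [Finset.sum_congr rfl fun x _ => hL x, Finset.sum_comm, Finset.mul_sum]
  refine Finset.sum_congr rfl fun y _ => ?_
  rw [← Finset.mul_sum, ← Finset.mul_sum]
  have hT : ∑' β : ZM m, (if IsUnit (cQ q β) then
      ft Φ (kk r g (cR β) h) * f (Ring.inverse (cQ q β) * y) else 0) = ∑' β, tm A f y β := by
    refine tsum_congr fun β => ?_
    unfold tm
    by_cases hu : IsUnit (cQ q β)
    · rw [if_pos hu, if_pos hu]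
    · rw [if_neg hu, if_neg hu]
  by_cases hy : IsUnit y
  · have key : ((q : ℝ) ^ (m ^ 2))⁻¹ = (q : ℝ) ^ (-((m : ℝ) ^ 2) / 2) *
        (q : ℝ) ^ (-((m : ℝ) ^ 2) / 2) := by
      rw [← Real.rpow_add hq0, ← Real.rpow_natCast (q : ℝ) (m ^ 2), ← Real.rpow_neg hq0.le]
      congr 1
      push_cast
      ring
    have hV : (starRingEnd ℂ) (opVz q f' y) = (((q : ℝ) ^ (-((m : ℝ) ^ 2) / 2) : ℝ) : ℂ) *
        ∑ x, (if IsUnit x then psq q (y * Ring.inverse x) * (starRingEnd ℂ) (f' x) else 0) := by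
      unfold opVz
      rw [if_pos hy, map_mul, Complex.conj_ofReal, map_sum]
      refine congrArg _ (Finset.sum_congr rfl fun x _ => ?_)
      by_cases hx : IsUnit x
      · rw [if_pos hx, if_pos hx, map_mul, starRingEnd_self_apply]
      · rw [if_neg hx, if_neg hx, map_zero]
    rw [hV, hK, div_eq_mul_inv, key]
    push_cast
    rw [← hT]
    ring
  · have hV : (starRingEnd ℂ) (opVz q f' y) = 0 := by
      unfold opVz
      rw [if_neg hy, map_zero]
    rw [hV, hS0 y hy]
    ring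

end Pool.Agent.H8.GZ
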