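import Pool.Agent.H16.GZ.Targets4

/-!
Row H1Z of the board gz_modules (MP_52e316_nt): composition of two kernels (helper8).
-/

set_option autoImplicit false

namespace Pool.Agent.H8.GZ

open MeasureTheory Pool.Agent.H34.GM Pool.Agent.H34.GZ

/-! ### algebra -/

theorem cR_mul {m : ℕ} (α β : ZM m) : cR (α * β) = cR α * cR β :=
  map_mul (Int.castRingHom ℝ).mapMatrix α β

theorem cQ_mul {m q : ℕ} (α β : ZM m) : cQ q (α * β) = cQ q α * cQ q β :=
  map_mul (Int.castRingHom (ZMod q)).mapMatrix α β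

theorem det_cR {m : ℕ} (α : ZM m) : (cR α).det = ((α.det : ℤ) : ℝ) :=
  (RingHom.map_det (Int.castRingHom ℝ) α).symm

theorem det_cR_ne {m : ℕ} (α : ZM m) (h : α.det ≠ 0) : (cR α).det ≠ 0 := by
  rw [det_cR]
  exact_mod_cast h

theorem abs_det_unit {m : ℕ} (c : ZM m) (hc : IsUnit c) : |(cR c).det| = 1 := by
  rw [Matrix.isUnit_iff_isUnit_det, Int.isUnit_iff] at hc
  rw [det_cR]
  rcases hc with h | h <;> simp [h]

theorem natAbs_det_mul {m : ℕ} (α β : ZM m) :
    ((α * β).det.natAbs : ℝ) = (α.det.natAbs : ℝ) * (β.det.natAbs : ℝ) := by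
  rw [Matrix.det_mul, Int.natAbs_mul]
  push_cast
  ring

theorem det_ne_of_pos {m : ℕ} (α : ZM m) (t : ℝ) (ht : 0 ≤ t) (h : t < (α.det.natAbs : ℝ)) :
    α.det ≠ 0 := by
  intro h0
  rw [h0] at h
  simp at h
  linarith

theorem aN_mul {m : ℕ} (a b : Mat m) : aN (a * b) = aN a * aN b := by
  unfold aN
  rw [Matrix.det_mul, abs_mul, Real.mul_rpow (abs_nonneg _) (abs_nonneg _)]

theorem aN_pos {m : ℕ} (a : Mat m) (h : a.det ≠ 0) : 0 < aN a :=
  Real.rpow_pos_of_pos (abs_pos.mpr h) _

theorem aN_unit {m : ℕ} (u a : Mat m) (hu : |u.det| = 1) : aN (u * a) = aN a := by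
  rw [aN_mul]
  have : aN u = 1 := by
    unfold aN
    rw [hu, Real.one_rpow]
  rw [this, one_mul]

/-- composition of the arguments of the kernels -/
theorem kk_comp {m : ℕ} (α β g h k : Mat m) (hh : h.det ≠ 0) :
    kk (aN (β * α)) k (β * α) g = kk (aN β) k β h * kk (aN α) h α g := by
  have h1 : h * h⁻¹ = 1 := Matrix.mul_nonsing_inv h (isUnit_iff_ne_zero.mpr hh)
  have h2 : 0 < aN h := aN_pos h hh
  unfold kk
  rw [Matrix.smul_mul, Matrix.mul_smul, smul_smul, aN_mul]
  have e1 : k⁻¹ * β * h * (h⁻¹ * α * g) = k⁻¹ * (β * α) * g := by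
    calc k⁻¹ * β * h * (h⁻¹ * α * g) = k⁻¹ * β * (h * h⁻¹) * α * g := by
          simp only [Matrix.mul_assoc]
      _ = k⁻¹ * (β * α) * g := by rw [h1, Matrix.mul_one]; simp only [Matrix.mul_assoc]
  rw [e1]
  have e2 : (aN β * aN α)⁻¹ * aN k / aN g = (aN β)⁻¹ * aN k / aN h * ((aN α)⁻¹ * aN h / aN g) := by
    rw [mul_inv]
    have := h2.ne'
    field_simp
  rw [e2]

/-- invariance of the argument of the kernel -/
theorem kk_unit {m : ℕ} (u α g h : Mat m) (hu : |u.det| = 1) :
    kk (aN (u * α)) (u * h) (u * α) g = kk (aN α) h α g := by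
  have hu0 : u.det ≠ 0 := by
    intro h0
    rw [h0] at hu
    simp at hu
  have h1 : u⁻¹ * u = 1 := Matrix.nonsing_inv_mul u (isUnit_iff_ne_zero.mpr hu0)
  unfold kk
  rw [aN_unit u α hu, aN_unit u h hu]
  have e1 : (u * h)⁻¹ * (u * α) * g = h⁻¹ * α * g := by
    rw [Matrix.mul_inv_rev]
    calc h⁻¹ * u⁻¹ * (u * α) * g = h⁻¹ * (u⁻¹ * u) * α * g := by simp only [Matrix.mul_assoc]
      _ = h⁻¹ * α * g := by rw [h1, Matrix.mul_one]
  rw [e1]

theorem abs_le_sz {m : ℕ} (a : Mat m) (i j : Fin m) : |a i j| ≤ sz a := by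
  have h1 := norm_le_pi_norm ((fun i j => a i j) : V m) i
  have h2 := norm_le_pi_norm (((fun i j => a i j) : V m) i) j
  exact h2.trans h1

theorem sz_nonneg {m : ℕ} (a : Mat m) : 0 ≤ sz a := norm_nonneg _

theorem sz_mul_le {m : ℕ} (a b : Mat m) (s t : ℝ) (ha : sz a ≤ s) (hb : sz b ≤ t) :
    sz (a * b) ≤ m * (s * t) := by
  have hs : 0 ≤ s := (sz_nonneg a).trans ha
  have ht : 0 ≤ t := (sz_nonneg b).trans hb
  have h0 : (0 : ℝ) ≤ m * (s * t) := by positivity
  unfold sz
  rw [pi_norm_le_iff_of_nonneg h0]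
  intro i
  rw [pi_norm_le_iff_of_nonneg h0]
  intro j
  rw [Real.norm_eq_abs, Matrix.mul_apply]
  calc |∑ l, a i l * b l j| ≤ ∑ l, |a i l * b l j| := Finset.abs_sum_le_sum_abs _ _
    _ ≤ ∑ _l : Fin m, s * t := by
        refine Finset.sum_le_sum fun l _ => ?_
        rw [abs_mul]
        exact mul_le_mul ((abs_le_sz a i l).trans ha) ((abs_le_sz b l j).trans hb)
          (abs_nonneg _) hs
    _ = m * (s * t) := by simp

/-! ### measurability -/

theorem inv_entry {m : ℕ} (a : Mat m) (i j : Fin m) :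
    a⁻¹ i j = (a.det)⁻¹ * a.adjugate i j := by
  rw [Matrix.inv_def, Ring.inverse_eq_inv', Matrix.smul_apply, smul_eq_mul]

theorem meas_det {m : ℕ} : Measurable (fun z : V m => (mt z).det) := by
  have : Continuous (fun z : V m => (mt z).det) :=
    Continuous.matrix_det (continuous_matrix fun i j => by
      change Continuous (fun z : V m => z i j)
      fun_prop)
  exact this.measurable

theorem meas_adj {m : ℕ} (i j : Fin m) : Measurable (fun z : V m => (mt z).adjugate i j) := by
  have h1 : Continuous (fun z : V m => (mt z).adjugate) :=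
    Continuous.matrix_adjugate (continuous_matrix fun i j => by
      change Continuous (fun z : V m => z i j)
      fun_prop)
  exact (h1.matrix_elem i j).measurable

theorem meas_aN {m : ℕ} : Measurable (fun z : V m => aN (mt z)) := by
  unfold aN
  exact (meas_det.abs).pow_const _

theorem meas_kk {m : ℕ} (r : ℝ) (α g : Mat m) :
    Measurable (fun z : V m => sz (kk r (mt z) α g)) := by
  unfold sz
  refine Measurable.norm ?_
  refine measurable_pi_iff.mpr fun i => measurable_pi_iff.mpr fun j => ?_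
  have h1 : ∀ z : V m, kk r (mt z) α g i j =
      (r⁻¹ * aN (mt z) / aN g) * ∑ l, (∑ t, (mt z).det⁻¹ * (mt z).adjugate i t * α t l) * g l j := by
    intro z
    unfold kk
    rw [Matrix.smul_apply, smul_eq_mul, Matrix.mul_apply]
    simp only [Matrix.mul_apply, inv_entry]
  simp only [h1]
  refine Measurable.mul ?_ ?_
  · exact ((meas_aN.const_mul _).div_const _)
  · refine Finset.measurable_sum _ fun l _ => Measurable.mul_const ?_ _
    refine Finset.measurable_sum _ fun t _ => Measurable.mul_const ?_ _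
    exact (meas_det.inv).mul (meas_adj i t)

/-! ### the pairs -/

open Classical in
/-- the pairs with the product `γ` and the right factor `α` -/
noncomputable def GG {m : ℕ} (g : Mat m) (γ α : ZM m) (h : V m) : ENNReal :=
  if (∀ i, γ i ∈ AddSubgroup.closure (Set.range α)) ∧
    sz (kk (aN (cR α)) (mt h) (cR α) g) ≤ 2 then 1 else 0

theorem meas_GG {m : ℕ} (g : Mat m) (γ α : ZM m) : Measurable (GG g γ α) := by
  classical
  unfold GG
  refine Measurable.ite ?_ measurable_const measurable_const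
  have h1 : MeasurableSet {z : V m | sz (kk (aN (cR α)) (mt z) (cR α) g) ≤ 2} :=
    measurableSet_le (meas_kk _ _ _) measurable_const
  have h2 : MeasurableSet {_z : V m | ∀ i, γ i ∈ AddSubgroup.closure (Set.range α)} :=
    MeasurableSet.const _
  exact h2.inter h1

theorem GG_inv (hIDX : T_IDX) {m : ℕ} (g : Mat m) (γ c α : ZM m) (z : V m) (hc : IsUnit c) :
    GG g γ (c * α) (fun i j => (cR c * mt z) i j) = GG g γ α z := by
  classical
  have h1 : (∀ i, γ i ∈ AddSubgroup.closure (Set.range (c * α))) ↔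
      ∀ i, γ i ∈ AddSubgroup.closure (Set.range α) := by
    rw [(hIDX m).2.2.1 (c * α) γ, (hIDX m).2.2.1 α γ]
    constructor
    · rintro ⟨u, hu⟩
      exact ⟨u * c, by rw [hu, Matrix.mul_assoc]⟩
    · rintro ⟨u, hu⟩
      obtain ⟨d, hd⟩ := hc.exists_left_inv
      refine ⟨u * d, ?_⟩
      rw [hu, Matrix.mul_assoc, ← Matrix.mul_assoc d c α]
      rw [show d * c = 1 from hd, Matrix.one_mul]
  have h2 : kk (aN (cR (c * α))) (mt (fun i j => (cR c * mt z) i j)) (cR (c * α)) g =
      kk (aN (cR α)) (mt z) (cR α) g := by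
    have h3 : mt (fun i j => (cR c * mt z) i j) = cR c * mt z := rfl
    rw [h3, cR_mul]
    exact kk_unit (cR c) (cR α) g (mt z) (abs_det_unit c hc)
  unfold GG
  rw [h2]
  by_cases h3 : ∀ i, γ i ∈ AddSubgroup.closure (Set.range α)
  · have h4 := h1.mpr h3
    simp only [h3, h4, true_and, implies_true]
  · have h4 := fun h => h3 (h1.mp h)
    rw [if_neg (fun h => h4 h.1), if_neg (fun h => h3 h.1)]

open Classical in
/-- the number of the subgroups above `γ` -/
theorem tsum_NL (hIDX : T_IDX) {m : ℕ} (γ : ZM m) (hγ : γ.det ≠ 0) (c : ENNReal) :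
    ∑' L : AddSubgroup (Fin m → ℤ), (if ∀ i, γ i ∈ L then c else 0) = c * (NL γ : ENNReal) := by
  have hf : {L : AddSubgroup (Fin m → ℤ) | ∀ i, γ i ∈ L}.Finite := ((hIDX m).2.2.2.2 γ hγ).1
  have h1 : ∑' L : AddSubgroup (Fin m → ℤ), (if ∀ i, γ i ∈ L then c else 0) =
      ∑ L ∈ hf.toFinset, c := by
    rw [tsum_eq_sum (s := hf.toFinset)]
    · refine Finset.sum_congr rfl fun L hL => ?_
      rw [Set.Finite.mem_toFinset] at hL
      exact if_pos hL
    · intro L hL
      rw [Set.Finite.mem_toFinset] at hL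
      exact if_neg hL
  rw [h1, Finset.sum_const, nsmul_eq_mul, mul_comm]
  have h2 : NL γ = hf.toFinset.card := by
    unfold NL
    exact Nat.card_eq_card_finite_toFinset hf
  rw [h2]

/-- the integral of the number of the right factors -/
theorem int_le (hUNL : T_UNL) (hSEX : T_SEX) (hIDX : T_IDX) {m : ℕ} (hm1 : 1 ≤ m)
    (D : Set (V m)) (hD : DomZ m D) (C : ℝ)
    (hSH : ∀ α g : Mat m, α.det ≠ 0 → g.det ≠ 0 →
      ∫⁻ z in Shell m, (@ite _ (sz (kk (aN α) (mt z) α g) ≤ 2) (Classical.propDecidable _)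
        (1 : ENNReal) 0) ∂(hm m) ≤ ENNReal.ofReal C)
    (g : Mat m) (hg : g.det ≠ 0) (γ : ZM m) (hγ : γ.det ≠ 0)
    (dec : ∀ α : ZM m, Decidable (α.det ≠ 0)) :
    ∫⁻ h in D, ∑' α : ZM m, (@ite _ (α.det ≠ 0) (dec α) (GG g γ α h) 0)
      ∂(hm m) ≤ ENNReal.ofReal C * (NL γ : ENNReal) := by
  classical
  obtain ⟨sel, vs, hS⟩ := hSEX m 1 (by simp)
  have h1 := hUNL m D hm1 hD sel (fun L hL => ⟨hS.det L hL, hS.gen L hL⟩) (GG g γ)
    (fun α => meas_GG g γ α) (fun c α z hc _ => GG_inv hIDX g γ c α z hc)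
  rw [← tsum_NL hIDX γ hγ]
  refine le_trans (le_of_eq ?_) (le_trans h1.le ?_)
  · refine lintegral_congr fun h => tsum_congr fun α => ?_
    by_cases h0 : α.det ≠ 0
    · rw [if_pos h0, if_pos h0]
    · rw [if_neg h0, if_neg h0]
  · refine ENNReal.tsum_le_tsum fun L => ?_
    by_cases hL : L.index ≠ 0
    · rw [if_pos hL]
      by_cases hM : ∀ i, γ i ∈ L
      · rw [if_pos hM]
        refine le_trans (lintegral_mono fun z => ?_) (hSH (cR (sel L)) g
          (det_cR_ne _ (hS.det L hL)) hg)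
        unfold GG
        by_cases h3 : sz (kk (aN (cR (sel L))) (mt z) (cR (sel L)) g) ≤ 2
        · rw [if_pos h3]
          split_ifs
          · exact le_rfl
          · exact zero_le
        · rw [if_neg (fun h => h3 h.2)]
          exact zero_le
      · have h4 : ∀ z, GG g γ (sel L) z = 0 := by
          intro z
          unfold GG
          refine if_neg fun h => hM ?_
          have := h.1
          rwa [hS.gen L hL] at this
        simp only [h4, lintegral_zero]
        exact zero_le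
    · rw [if_neg hL]
      exact zero_le

/-- the condition of the kernel on the product -/
def II {m q : ℕ} (y : ℝ) (g : Mat m) (x : RM m q) (k : Mat m) (z : RM m q) (γ : ZM m) : Prop :=
  cQ q γ * x = z ∧ IsUnit z ∧ y ^ 2 / 4 < (γ.det.natAbs : ℝ) ∧
    (γ.det.natAbs : ℝ) ≤ y ^ 2 ∧ sz (kk (aN (cR γ)) k (cR γ) g) ≤ 4 * m

open Classical in
/-- one pair -/
theorem pair_le (hIDX : T_IDX) {m q : ℕ} [NeZero q] (y : ℝ) (hy : 0 < y) (g k : Mat m)
    (x z : RM m q) (h : V m) (hh : (mt h).det ≠ 0) (α β : ZM m) :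
    ∑ w : RM m q, (if cQ q α * x = w ∧ IsUnit w ∧ y / 2 < (α.det.natAbs : ℝ) ∧
      (α.det.natAbs : ℝ) ≤ y ∧ sz (kk (aN (cR α)) (mt h) (cR α) g) ≤ 2 then (1 : ENNReal) else 0) *
      (if cQ q β * w = z ∧ IsUnit z ∧ y / 2 < (β.det.natAbs : ℝ) ∧
      (β.det.natAbs : ℝ) ≤ y ∧ sz (kk (aN (cR β)) k (cR β) (mt h)) ≤ 2 then (1 : ENNReal) else 0) ≤
    if α.det ≠ 0 then (if II y g x k z (β * α) then GG g (β * α) α h else 0) else 0 := by
  rw [Finset.sum_eq_single (cQ q α * x) (fun w _ hw => by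
    rw [if_neg (fun h => hw h.1.symm), zero_mul]) (fun h => absurd (Finset.mem_univ _) h)]
  by_cases hA : cQ q α * x = cQ q α * x ∧ IsUnit (cQ q α * x) ∧ y / 2 < (α.det.natAbs : ℝ) ∧
      (α.det.natAbs : ℝ) ≤ y ∧ sz (kk (aN (cR α)) (mt h) (cR α) g) ≤ 2
  · by_cases hB : cQ q β * (cQ q α * x) = z ∧ IsUnit z ∧ y / 2 < (β.det.natAbs : ℝ) ∧
      (β.det.natAbs : ℝ) ≤ y ∧ sz (kk (aN (cR β)) k (cR β) (mt h)) ≤ 2
    · rw [if_pos hA, if_pos hB]
      obtain ⟨_, _, a1, a2, a3⟩ := hA
      obtain ⟨b0, bz, b1, b2, b3⟩ := hB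
      have hα : α.det ≠ 0 := det_ne_of_pos α (y / 2) (by linarith) a1
      have hI : II y g x k z (β * α) := by
        refine ⟨?_, bz, ?_, ?_, ?_⟩
        · rw [cQ_mul, Matrix.mul_assoc]
          exact b0
        · rw [natAbs_det_mul]
          calc y ^ 2 / 4 = y / 2 * (y / 2) := by ring
            _ < (β.det.natAbs : ℝ) * (α.det.natAbs : ℝ) :=
                mul_lt_mul'' b1 a1 (by linarith) (by linarith)
        · rw [natAbs_det_mul]
          calc (β.det.natAbs : ℝ) * (α.det.natAbs : ℝ) ≤ y * y :=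
                mul_le_mul b2 a2 (Nat.cast_nonneg _) hy.le
            _ = y ^ 2 := by ring
        · rw [cR_mul, kk_comp (cR α) (cR β) g (mt h) k hh]
          calc sz (kk (aN (cR β)) k (cR β) (mt h) * kk (aN (cR α)) (mt h) (cR α) g)
              ≤ m * (2 * 2) := sz_mul_le _ _ 2 2 b3 a3
            _ = 4 * m := by ring
      have hG : GG g (β * α) α h = 1 := by
        unfold GG
        refine if_pos ⟨?_, a3⟩
        rw [(hIDX m).2.2.1 α (β * α)]
        exact ⟨β, rfl⟩
      rw [if_pos hα, if_pos hI, hG, one_mul]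
    · rw [if_neg hB, mul_zero]
      exact zero_le
  · rw [if_neg hA, zero_mul]
    exact zero_le

theorem right_inj {m : ℕ} (α : ZM m) (h : α.det ≠ 0) :
    Function.Injective (fun β : ZM m => β * α) := by
  have h1 : IsLeftRegular α.det := IsLeftCancelMulZero.mul_left_cancel_of_ne_zero h
  exact (Matrix.isRegular_of_isLeftRegular_det h1).right

open Classical in
/-- the pairs at one point -/
theorem point_le (hIDX : T_IDX) {m q : ℕ} [NeZero q] (y : ℝ) (hy : 0 < y) (g k : Mat m)
    (x z : RM m q) (h : V m) (hh : (mt h).det ≠ 0) :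
    ∑ w : RM m q, Pz y g x (mt h) w * Pz y (mt h) w k z ≤
      ∑' γ : ZM m, if II y g x k z γ then
        ∑' α : ZM m, (if α.det ≠ 0 then GG g γ α h else 0) else 0 := by
  have h1 : ∀ w : RM m q, Pz y g x (mt h) w * Pz y (mt h) w k z = ∑' α : ZM m, ∑' β : ZM m,
      (if cQ q α * x = w ∧ IsUnit w ∧ y / 2 < (α.det.natAbs : ℝ) ∧
      (α.det.natAbs : ℝ) ≤ y ∧ sz (kk (aN (cR α)) (mt h) (cR α) g) ≤ 2 then (1 : ENNReal) else 0) *
      (if cQ q β * w = z ∧ IsUnit z ∧ y / 2 < (β.det.natAbs : ℝ) ∧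
      (β.det.natAbs : ℝ) ≤ y ∧ sz (kk (aN (cR β)) k (cR β) (mt h)) ≤ 2 then (1 : ENNReal)
        else 0) := by
    intro w
    unfold Pz
    rw [← ENNReal.tsum_mul_right]
    refine tsum_congr fun α => ?_
    rw [← ENNReal.tsum_mul_left]
    refine tsum_congr fun β => ?_
    split_ifs <;> rfl
  rw [Finset.sum_congr rfl fun w _ => h1 w]
  rw [← Summable.tsum_finsetSum (fun _ _ => ENNReal.summable)]
  calc ∑' α : ZM m, ∑ w : RM m q, ∑' β : ZM m, _
      = ∑' α : ZM m, ∑' β : ZM m, ∑ w : RM m q, _ := by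
        refine tsum_congr fun α => ?_
        exact (Summable.tsum_finsetSum (fun _ _ => ENNReal.summable)).symm
    _ ≤ ∑' α : ZM m, ∑' β : ZM m,
        (if α.det ≠ 0 then (if II y g x k z (β * α) then GG g (β * α) α h else 0) else 0) :=
        ENNReal.tsum_le_tsum fun α => ENNReal.tsum_le_tsum fun β =>
          pair_le hIDX y hy g k x z h hh α β
    _ ≤ ∑' α : ZM m, ∑' γ : ZM m,
        (if α.det ≠ 0 then (if II y g x k z γ then GG g γ α h else 0) else 0) := by
        refine ENNReal.tsum_le_tsum fun α => ?_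
        by_cases hα : α.det ≠ 0
        · simp only [if_pos hα]
          exact ENNReal.tsum_comp_le_tsum_of_injective (right_inj α hα)
            (fun γ : ZM m => if II y g x k z γ then GG g γ α h else 0)
        · simp only [if_neg hα]
          exact le_rfl
    _ = ∑' γ : ZM m, ∑' α : ZM m,
        (if α.det ≠ 0 then (if II y g x k z γ then GG g γ α h else 0) else 0) := ENNReal.tsum_comm
    _ = ∑' γ : ZM m, if II y g x k z γ then
        ∑' α : ZM m, (if α.det ≠ 0 then GG g γ α h else 0) else 0 := by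
        refine tsum_congr fun γ => ?_
        by_cases hI : II y g x k z γ
        · simp only [if_pos hI]
        · simp only [if_neg hI, ite_self, tsum_zero]

theorem pf_H1Z (hUNL : T_UNL) (hSHB : T_SHB) (hSEX : T_SEX) (hIDX : T_IDX) : T_H1Z := by
  classical
  intro m hm1
  obtain ⟨C, hC, hSH⟩ := hSHB m 2 hm1 two_pos
  refine ⟨C, hC, ?_⟩
  intro q _ D _ hD y hy g k x z hg _
  haveI : Countable (ZM m) := inferInstanceAs (Countable (Fin m → Fin m → ℤ))
  have hmeas : ∀ γ : ZM m, Measurable (fun h : V m => if II y g x k z γ then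
      ∑' α : ZM m, (if α.det ≠ 0 then GG g γ α h else 0) else 0) := by
    intro γ
    by_cases hI : II y g x k z γ
    · simp only [if_pos hI]
      refine Measurable.tsum fun α => ?_
      by_cases hα : α.det ≠ 0
      · simp only [if_pos hα]
        exact meas_GG g γ α
      · simp only [if_neg hα]
        exact measurable_const
    · simp only [if_neg hI]
      exact measurable_const
  calc PPz D y g x k z
      ≤ ∫⁻ h in D, ∑' γ : ZM m, (if II y g x k z γ then
        ∑' α : ZM m, (if α.det ≠ 0 then GG g γ α h else 0) else 0) ∂(hm m) := by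
        unfold PPz
        refine setLIntegral_mono' hD.meas fun h hh => ?_
        have h1 : (mt h).det ≠ 0 := by
          intro h0
          have h2 := (hD.shell h hh).1
          unfold aN at h2
          rw [h0, abs_zero, Real.zero_rpow] at h2
          · linarith
          · have : (0 : ℝ) < m := by exact_mod_cast hm1
            positivity
        exact point_le hIDX y hy g k x z h h1
    _ = ∑' γ : ZM m, ∫⁻ h in D, (if II y g x k z γ then
        ∑' α : ZM m, (if α.det ≠ 0 then GG g γ α h else 0) else 0) ∂(hm m) :=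
        lintegral_tsum fun γ => (hmeas γ).aemeasurable
    _ ≤ ∑' γ : ZM m, ENNReal.ofReal C * (if II y g x k z γ then (NL γ : ENNReal) else 0) := by
        refine ENNReal.tsum_le_tsum fun γ => ?_
        by_cases hI : II y g x k z γ
        · simp only [if_pos hI]
          exact int_le hUNL hSEX hIDX hm1 D hD C hSH g hg γ
            (det_ne_of_pos γ (y ^ 2 / 4) (by positivity) hI.2.2.1) _
        · simp only [if_neg hI, lintegral_zero, mul_zero]
          exact le_rfl
    _ = ENNReal.ofReal C * Kz y g x k z := by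
        rw [ENNReal.tsum_mul_left]
        unfold Kz
        refine congrArg _ (tsum_congr fun γ => ?_)
        by_cases hI : II y g x k z γ
        · rw [if_pos hI]
          exact (if_pos hI).symm
        · rw [if_neg hI]
          exact (if_neg hI).symm

end Pool.Agent.H8.GZ
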