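import Pool.Agent.H23.GZ.Targets5

/-!
Row DIL of the board gz_modules (MP_52e316_nt): the local transform of a scaled function (helper8).
-/

set_option autoImplicit false

namespace Pool.Agent.H8.GZ.DL

open MeasureTheory Pool.Agent.H34.GM Pool.Agent.H34.GZ

/-! ### basic facts -/

theorem meas_det {m : ℕ} : Measurable (fun z : V m => (mt z).det) := by
  have : Continuous (fun z : V m => (mt z).det) :=
    Continuous.matrix_det (continuous_matrix fun i j => by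
      change Continuous (fun z : V m => z i j)
      fun_prop)
  exact this.measurable

theorem meas_aN {m : ℕ} : Measurable (fun z : V m => aN (mt z)) := by
  unfold aN
  exact (meas_det.abs).pow_const _

theorem meas_shell (m : ℕ) : MeasurableSet (Shell m) :=
  (measurableSet_le measurable_const meas_aN).inter (measurableSet_lt meas_aN measurable_const)

theorem aN_zero {m : ℕ} (hm1 : 1 ≤ m) (z : Mat m) (h : z.det = 0) : aN z = 0 := by
  unfold aN
  have : (0 : ℝ) < m := by exact_mod_cast hm1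
  rw [h, abs_zero, Real.zero_rpow (by positivity)]

theorem aN_smul {m : ℕ} (hm1 : 1 ≤ m) (c : ℝ) (hc : 0 < c) (z : Mat m) :
    aN (c • z) = c * aN z := by
  have hm0 : (m : ℝ) ≠ 0 := by
    have : (0 : ℝ) < m := by exact_mod_cast hm1
    exact this.ne'
  unfold aN
  rw [Matrix.det_smul, Fintype.card_fin, abs_mul, abs_of_pos (pow_pos hc m),
    Real.mul_rpow (pow_pos hc m).le (abs_nonneg _), ← Real.rpow_natCast c m,
    ← Real.rpow_mul hc.le, mul_one_div_cancel hm0, Real.rpow_one]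

/-- the exponents of the power function -/
noncomputable def ex {m : ℕ} (mu : Fin m → ℂ) (j : Fin m) : ℂ :=
  -(mu j) + (2 * ((j : ℕ) + 1 : ℂ) - m - 1) / 2

theorem sum_range (m : ℕ) (a : ℂ) :
    ∑ j ∈ Finset.range m, (2 * ((j : ℂ) + 1) - a - 1) / 2 = (m * (m + 1) - m * (a + 1)) / 2 := by
  induction m with
  | zero => simp
  | succ k ih =>
    rw [Finset.sum_range_succ, ih]
    push_cast
    ring

theorem sum_ex {m : ℕ} (mu : Fin m → ℂ) (h : ∑ j, mu j = 0) : ∑ j, ex mu j = 0 := by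
  unfold ex
  rw [Finset.sum_add_distrib, Finset.sum_neg_distrib, h,
    Fin.sum_univ_eq_sum_range (fun j => (2 * ((j : ℂ) + 1) - m - 1) / 2) m, sum_range]
  ring

theorem prod_cpow {m : ℕ} (mu : Fin m → ℂ) (h : ∑ j, mu j = 0) (c : ℝ) (hc : 0 < c) :
    ∏ j, ((c : ℝ) : ℂ) ^ ex mu j = 1 := by
  have hc0 : ((c : ℝ) : ℂ) ≠ 0 := by exact_mod_cast hc.ne'
  have h1 : ∀ j, ((c : ℝ) : ℂ) ^ ex mu j = Complex.exp (Complex.log c * ex mu j) :=
    fun j => Complex.cpow_def_of_ne_zero hc0 _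
  simp only [h1]
  rw [← Complex.exp_sum, ← Finset.mul_sum, sum_ex mu h, mul_zero, Complex.exp_zero]

theorem pw_eq (hPWF : T_PWF) {m : ℕ} (mu : Fin m → ℂ) (z : Mat m) (hz : z.det ≠ 0) :
    pw mu z = ∏ j, ((‖oc z j‖ : ℝ) : ℂ) ^ ex mu j := (hPWF m mu z hz).1

theorem mul_cpow' (a b : ℝ) (ha : 0 ≤ a) (hb : 0 ≤ b) (e : ℂ) :
    ((a * b : ℝ) : ℂ) ^ e = (a : ℂ) ^ e * (b : ℂ) ^ e := by
  rw [Complex.ofReal_mul, Complex.mul_cpow_ofReal_nonneg ha hb]

theorem pw_smul (hPWF : T_PWF) (hSCP : T_SCP) {m : ℕ} (mu : Fin m → ℂ) (h : ∑ j, mu j = 0)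
    (z : Mat m) (hz : z.det ≠ 0) (c : ℝ) (hc : 0 < c) : pw mu (c • z) = pw mu z := by
  have hz' : (c • z).det ≠ 0 := by
    rw [Matrix.det_smul]
    exact mul_ne_zero (pow_ne_zero _ hc.ne') hz
  rw [pw_eq hPWF mu _ hz', pw_eq hPWF mu _ hz]
  have h1 : ∀ j, ((‖oc (c • z) j‖ : ℝ) : ℂ) ^ ex mu j =
      ((c : ℝ) : ℂ) ^ ex mu j * ((‖oc z j‖ : ℝ) : ℂ) ^ ex mu j := by
    intro j
    rw [((hSCP m 1 (fun _ => one_pos)).2.2.1 c z).2 j, norm_smul, Real.norm_of_nonneg hc.le,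
      mul_cpow' _ _ hc.le (norm_nonneg _)]
  simp only [h1]
  rw [Finset.prod_mul_distrib, prod_cpow mu h c hc, one_mul]

theorem pw_sc (hPWF : T_PWF) (hSCP : T_SCP) {m : ℕ} (mu : Fin m → ℂ) (ρ : Fin m → ℝ)
    (hρ : ∀ j, 0 < ρ j) (z : Mat m) (hz : z.det ≠ 0) :
    pw mu z = (∏ j, ((ρ j : ℝ) : ℂ) ^ (-ex mu j)) * pw mu (sc ρ z) := by
  have hz' : (sc ρ z).det ≠ 0 := by
    rw [(hSCP m ρ hρ).2.1 z]
    exact mul_ne_zero (Finset.prod_ne_zero_iff.mpr fun j _ => (hρ j).ne') hz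
  rw [pw_eq hPWF mu _ hz', pw_eq hPWF mu _ hz, ← Finset.prod_mul_distrib]
  refine Finset.prod_congr rfl fun j _ => ?_
  have hρ0 : ((ρ j : ℝ) : ℂ) ≠ 0 := by exact_mod_cast (hρ j).ne'
  rw [(hSCP m ρ hρ).1 z j, norm_smul, Real.norm_of_nonneg (hρ j).le,
    mul_cpow' _ _ (hρ j).le (norm_nonneg _), ← mul_assoc, ← Complex.cpow_add _ _ hρ0,
    neg_add_cancel, Complex.cpow_zero, one_mul]

/-! ### the scaling as a measurable equivalence -/

/-- the scaling -/
noncomputable def sv {m : ℕ} (ρ : Fin m → ℝ) (z : V m) : V m := fun i l => sc ρ (mt z) i l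

theorem mt_sv {m : ℕ} (ρ : Fin m → ℝ) (z : V m) : mt (sv ρ z) = sc ρ (mt z) := rfl

theorem sv_inv (hSCP : T_SCP) {m : ℕ} (ρ : Fin m → ℝ) (hρ : ∀ j, 0 < ρ j) (z : V m) :
    sv (fun j => (ρ j)⁻¹) (sv ρ z) = z := by
  have h1 := (hSCP m ρ hρ).2.2.2.1 (mt z)
  have h2 : sv (fun j => (ρ j)⁻¹) (sv ρ z) =
      fun i l => sc (fun j => (ρ j)⁻¹) (sc ρ (mt z)) i l := rfl
  rw [h2, h1]
  rfl

/-- the scaling as a measurable equivalence -/
noncomputable def eqv (hSCP : T_SCP) {m : ℕ} (ρ : Fin m → ℝ) (hρ : ∀ j, 0 < ρ j) :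
    V m ≃ᵐ V m where
  toFun := sv ρ
  invFun := sv (fun j => (ρ j)⁻¹)
  left_inv := sv_inv hSCP ρ hρ
  right_inv := by
    intro z
    have h := sv_inv hSCP (fun j => (ρ j)⁻¹) (fun j => inv_pos.mpr (hρ j)) z
    simpa only [inv_inv] using h
  measurable_toFun := (hSCP m ρ hρ).2.2.2.2.2.1
  measurable_invFun := (hSCP m (fun j => (ρ j)⁻¹) (fun j => inv_pos.mpr (hρ j))).2.2.2.2.2.1

theorem map_eqv (hSCP : T_SCP) (hSCJ : T_SCJ) {m : ℕ} (ρ : Fin m → ℝ) (hρ : ∀ j, 0 < ρ j) :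
    Measure.map (eqv hSCP ρ hρ) (hm m) =
      ENNReal.ofReal (∏ j, ρ j ^ (j : ℕ)) • hm m := by
  ext s hs
  rw [Measure.map_apply (eqv hSCP ρ hρ).measurable hs, Measure.smul_apply, smul_eq_mul]
  have h1 := hSCJ m ρ hρ (s.indicator 1) (measurable_one.indicator hs)
  rw [lintegral_indicator_one hs] at h1
  rw [← h1, ← lintegral_indicator_one ((eqv hSCP ρ hρ).measurable hs)]
  rfl

theorem int_sv (hSCP : T_SCP) (hSCJ : T_SCJ) {m : ℕ} (ρ : Fin m → ℝ) (hρ : ∀ j, 0 < ρ j)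
    (g : V m → ℂ) : ∫ z, g (sv ρ z) ∂(hm m) =
      ((∏ j, ρ j ^ (j : ℕ) : ℝ) : ℂ) * ∫ z, g z ∂(hm m) := by
  have h0 : 0 ≤ ∏ j, ρ j ^ (j : ℕ) := Finset.prod_nonneg fun j _ => pow_nonneg (hρ j).le _
  have h1 := integral_map_equiv (μ := hm m) (eqv hSCP ρ hρ) g
  rw [map_eqv hSCP hSCJ ρ hρ, integral_smul_measure, ENNReal.toReal_ofReal h0] at h1
  rw [Complex.real_smul] at h1
  exact h1.symm

end Pool.Agent.H8.GZ.DL

namespace Pool.Agent.H8.GZ

open MeasureTheory Pool.Agent.H34.GM Pool.Agent.H34.GZ DL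

theorem pf_DIL (hSCP : T_SCP) (hSCJ : T_SCJ) (hPWF : T_PWF) (hHAC : T_HAC) : T_DIL := by
  classical
  intro m hm1 mu hmu ρ hρ f _ r hr
  have hP : 0 < ∏ j, ρ j := Finset.prod_pos fun j _ => hρ j
  set c : ℝ := (∏ j, ρ j) ^ (-(1 / (m : ℝ))) with hc
  have hc0 : 0 < c := Real.rpow_pos_of_pos hP _
  set A : ℂ := ∏ j, ((ρ j : ℝ) : ℂ) ^ (-ex mu j) with hA
  -- normalised determinant of the scaled matrix
  have haN : ∀ z : Mat m, c * aN (sc ρ z) = aN z := by
    intro z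
    unfold aN
    rw [(hSCP m ρ hρ).2.1 z, abs_mul, abs_of_pos hP, Real.mul_rpow hP.le (abs_nonneg _),
      ← mul_assoc, hc, ← Real.rpow_add hP, neg_add_cancel, Real.rpow_zero, one_mul]
  -- the function on the target side
  set G' : V m → ℂ := (Shell m).indicator (fun w =>
    f (((r * c)⁻¹ * (aN (mt w))⁻¹) • mt w) * (A * pw mu (mt w))) with hG'
  set G : V m → ℂ := fun w => G' (fun i j => ((c • (1 : Mat m)) * mt w) i j) with hG
  have hcm : ∀ w : V m, mt (fun i j => ((c • (1 : Mat m)) * mt w) i j) = c • mt w := by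
    intro w
    have : (c • (1 : Mat m)) * mt w = c • mt w := by
      rw [Matrix.smul_mul, Matrix.one_mul]
    rw [this]
    rfl
  have hdet : (c • (1 : Mat m)).det ≠ 0 := by
    rw [Matrix.det_smul, Matrix.det_one, mul_one]
    exact pow_ne_zero _ hc0.ne'
  -- first step
  have h1 : ∀ z : V m, (Shell m).indicator (fun z : V m =>
      f (sc ρ ((r⁻¹ * (aN (mt z))⁻¹) • mt z)) * pw mu (mt z)) z = G (sv ρ z) := by
    intro z
    have hmem : ((fun i j => ((c • (1 : Mat m)) * mt (sv ρ z)) i j) : V m) ∈ Shell m ↔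
        z ∈ Shell m := by
      change (1 ≤ aN (mt (fun i j => ((c • (1 : Mat m)) * mt (sv ρ z)) i j)) ∧
        aN (mt (fun i j => ((c • (1 : Mat m)) * mt (sv ρ z)) i j)) < Real.exp 1) ↔
        (1 ≤ aN (mt z) ∧ aN (mt z) < Real.exp 1)
      rw [hcm, aN_smul hm1 c hc0, mt_sv, haN]
    by_cases hz : z ∈ Shell m
    · have hz0 : (mt z).det ≠ 0 := by
        intro h0
        have := hz.1
        rw [aN_zero hm1 _ h0] at this
        linarith
      have hw0 : (sc ρ (mt z)).det ≠ 0 := by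
        rw [(hSCP m ρ hρ).2.1 (mt z)]
        exact mul_ne_zero hP.ne' hz0
      rw [Set.indicator_of_mem hz, hG, hG']
      simp only
      rw [Set.indicator_of_mem (hmem.mpr hz), hcm, aN_smul hm1 c hc0, mt_sv, haN,
        pw_smul hPWF hSCP mu hmu _ hw0 c hc0, ← pw_sc hPWF hSCP mu ρ hρ (mt z) hz0,
        ((hSCP m ρ hρ).2.2.1 _ (mt z)).1, smul_smul]
      have e1 : (r * c)⁻¹ * (aN (mt z))⁻¹ * c = r⁻¹ * (aN (mt z))⁻¹ := by
        rw [mul_inv]
        have := hc0.ne'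
        field_simp
      rw [e1]
    · rw [Set.indicator_of_notMem hz, hG, hG']
      simp only
      rw [Set.indicator_of_notMem (fun h => hz (hmem.mp h))]
  have h2 : th1 (fun z => f (sc ρ z)) mu r = ∫ z, G (sv ρ z) ∂(hm m) := by
    unfold th1
    rw [← integral_indicator (meas_shell m)]
    exact integral_congr_ae (Filter.Eventually.of_forall h1)
  have h3 : ∫ z, G z ∂(hm m) = ∫ z, G' z ∂(hm m) :=
    ((hHAC m hm1).1 (c • (1 : Mat m)) hdet G').1
  have h4 : ∫ z, G' z ∂(hm m) = A * th1 f mu (r * c) := by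
    rw [hG', integral_indicator (meas_shell m)]
    unfold th1
    rw [← integral_const_mul]
    refine integral_congr_ae (Filter.Eventually.of_forall fun z => ?_)
    simp only
    ring
  rw [h2, int_sv hSCP hSCJ ρ hρ G, h3, h4, ← mul_assoc]
  refine congrArg (fun x => x * _) ?_
  rw [hA]
  push_cast
  rw [← Finset.prod_mul_distrib]
  refine Finset.prod_congr rfl fun j _ => ?_
  have hρ0 : ((ρ j : ℝ) : ℂ) ≠ 0 := by exact_mod_cast (hρ j).ne'
  rw [← Complex.cpow_natCast, ← Complex.cpow_add _ _ hρ0]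
  refine congrArg _ ?_
  unfold ex
  ring

end Pool.Agent.H8.GZ
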